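import Pool.Agent.Q35.TT.Stm
import Mathlib.RingTheory.Nullstellensatz
import Mathlib.NumberTheory.Height.MvPolynomial
import Mathlib.RingTheory.MvPolynomial.WeightedHomogeneous

/-!
# The height of the squares of the partial derivatives of a smooth form of bidegree (4,4)
(job NSH of project TT, helper275)
-/

set_option autoImplicit false

open Pool.Agent.Q35.TT MvPolynomial Height

namespace Pool.Agent.Q275.TT

/-! ### Ring homomorphisms -/

section hom

variable {R S : Type} [CommRing R] [CommRing S]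

theorem bq_map (φ : R →+* S) (a : Fin 5 → R) (x : Fin 2 → R) :
    φ (bq a x) = bq (fun i => φ (a i)) (fun i => φ (x i)) := by
  simp only [bq, map_add, map_mul, map_pow]

theorem bd_map (φ : R →+* S) (a : Fin 5 → R) (x : Fin 2 → R) (k : Fin 2) :
    φ (bd a x k) = bd (fun i => φ (a i)) (fun i => φ (x i)) k := by
  fin_cases k <;> simp [bd, map_ofNat]

theorem cx_map (φ : R →+* S) (c : Fin 5 → Fin 5 → R) (y : Fin 2 → R) :
    (fun i => φ (cx c y i)) = cx (fun i j => φ (c i j)) (fun i => φ (y i)) := by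
  funext i
  exact bq_map φ _ _

theorem cy_map (φ : R →+* S) (c : Fin 5 → Fin 5 → R) (x : Fin 2 → R) :
    (fun i => φ (cy c x i)) = cy (fun i j => φ (c i j)) (fun i => φ (x i)) := by
  funext i
  exact bq_map φ _ _

theorem ZA_map (φ : R →+* S) (c : Fin 5 → Fin 5 → R) (x y : Fin 2 → R)
    (k : (Fin 2 × Fin 2) ⊕ (Fin 2 × Fin 2)) :
    φ (ZA c x y k) = ZA (fun i j => φ (c i j)) (fun i => φ (x i)) (fun i => φ (y i)) k := by
  rcases k with k | k
  · simp only [ZA, Sum.elim_inl, map_mul, map_pow, bd_map, cx_map]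
  · simp only [ZA, Sum.elim_inr, map_mul, map_pow, bd_map, cy_map]

end hom

/-! ### Bihomogeneous polynomials -/

/-- The weights. -/
def wt : Fin 2 ⊕ Fin 2 → ℕ × ℕ := Sum.elim (fun _ => (1, 0)) fun _ => (0, 1)

variable {K : Type} [Field K]

/-- The generic point. -/
noncomputable def xv (K : Type) [Field K] : Fin 2 → MvPolynomial (Fin 2 ⊕ Fin 2) K :=
  fun i => X (Sum.inl i)

/-- The generic point, second coordinates. -/
noncomputable def yv (K : Type) [Field K] : Fin 2 → MvPolynomial (Fin 2 ⊕ Fin 2) K :=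
  fun i => X (Sum.inr i)

theorem xv_hom (i : Fin 2) : IsWeightedHomogeneous wt (xv K i) (1, 0) :=
  isWeightedHomogeneous_X K wt (Sum.inl i)

theorem yv_hom (i : Fin 2) : IsWeightedHomogeneous wt (yv K i) (0, 1) :=
  isWeightedHomogeneous_X K wt (Sum.inr i)

theorem nat_hom (n : ℕ) : IsWeightedHomogeneous wt
    ((n : MvPolynomial (Fin 2 ⊕ Fin 2) K)) (0 : ℕ × ℕ) := by
  rw [← map_natCast (C : K →+* MvPolynomial (Fin 2 ⊕ Fin 2) K)]
  exact isWeightedHomogeneous_C wt _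

theorem bq_hom (a : Fin 5 → MvPolynomial (Fin 2 ⊕ Fin 2) K)
    (x : Fin 2 → MvPolynomial (Fin 2 ⊕ Fin 2) K) (m n : ℕ × ℕ)
    (ha : ∀ i, IsWeightedHomogeneous wt (a i) m) (hx : ∀ i, IsWeightedHomogeneous wt (x i) n) :
    IsWeightedHomogeneous wt (bq a x) (m + 4 • n) := by
  have e1 : 4 • n = 3 • n + 1 • n := by rw [← add_smul]
  have e2 : 4 • n = 2 • n + 2 • n := by rw [← add_smul]
  have e3 : 4 • n = 1 • n + 3 • n := by rw [← add_smul]
  have h1 (i : Fin 2) : IsWeightedHomogeneous wt (x i) (1 • n) := by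
    rw [one_smul]; exact hx i
  unfold bq
  refine IsWeightedHomogeneous.add (IsWeightedHomogeneous.add (IsWeightedHomogeneous.add
    (IsWeightedHomogeneous.add ?_ ?_) ?_) ?_) ?_
  · exact (ha 0).mul ((hx 0).pow 4)
  · rw [e1]
    exact (ha 1).mul (((hx 0).pow 3).mul (h1 1))
  · rw [e2]
    exact (ha 2).mul (((hx 0).pow 2).mul ((hx 1).pow 2))
  · rw [e3]
    exact (ha 3).mul ((h1 0).mul ((hx 1).pow 3))
  · exact (ha 4).mul ((hx 1).pow 4)

theorem two_hom : IsWeightedHomogeneous wt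
    ((2 : MvPolynomial (Fin 2 ⊕ Fin 2) K)) (0 : ℕ × ℕ) := by
  exact_mod_cast nat_hom (K := K) 2

theorem three_hom : IsWeightedHomogeneous wt
    ((3 : MvPolynomial (Fin 2 ⊕ Fin 2) K)) (0 : ℕ × ℕ) := by
  exact_mod_cast nat_hom (K := K) 3

theorem four_hom : IsWeightedHomogeneous wt
    ((4 : MvPolynomial (Fin 2 ⊕ Fin 2) K)) (0 : ℕ × ℕ) := by
  exact_mod_cast nat_hom (K := K) 4

theorem sm_hom {k a : MvPolynomial (Fin 2 ⊕ Fin 2) K} {m : ℕ × ℕ}
    (hk : IsWeightedHomogeneous wt k (0 : ℕ × ℕ)) (ha : IsWeightedHomogeneous wt a m) :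
    IsWeightedHomogeneous wt (k * a) m := by
  have := hk.mul ha
  rwa [zero_add] at this

theorem bd_hom (a : Fin 5 → MvPolynomial (Fin 2 ⊕ Fin 2) K)
    (x : Fin 2 → MvPolynomial (Fin 2 ⊕ Fin 2) K) (m n : ℕ × ℕ)
    (ha : ∀ i, IsWeightedHomogeneous wt (a i) m) (hx : ∀ i, IsWeightedHomogeneous wt (x i) n)
    (k : Fin 2) :
    IsWeightedHomogeneous wt (bd a x k) (m + 3 • n) := by
  have e1 : 3 • n = 2 • n + 1 • n := by rw [← add_smul]
  have e2 : 3 • n = 1 • n + 2 • n := by rw [← add_smul]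
  have h1 (i : Fin 2) : IsWeightedHomogeneous wt (x i) (1 • n) := by
    rw [one_smul]; exact hx i
  have p1 : IsWeightedHomogeneous wt (x 0 ^ 2 * x 1) (3 • n) := by
    rw [e1]; exact ((hx 0).pow 2).mul (h1 1)
  have p2 : IsWeightedHomogeneous wt (x 0 * x 1 ^ 2) (3 • n) := by
    rw [e2]; exact (h1 0).mul ((hx 1).pow 2)
  fin_cases k
  · change IsWeightedHomogeneous wt (4 * a 0 * x 0 ^ 3 + 3 * a 1 * (x 0 ^ 2 * x 1) +
      2 * a 2 * (x 0 * x 1 ^ 2) + a 3 * x 1 ^ 3) (m + 3 • n)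
    refine IsWeightedHomogeneous.add (IsWeightedHomogeneous.add (IsWeightedHomogeneous.add
      ?_ ?_) ?_) ?_
    · exact (sm_hom four_hom (ha 0)).mul ((hx 0).pow 3)
    · exact (sm_hom three_hom (ha 1)).mul p1
    · exact (sm_hom two_hom (ha 2)).mul p2
    · exact (ha 3).mul ((hx 1).pow 3)
  · change IsWeightedHomogeneous wt (a 1 * x 0 ^ 3 + 2 * a 2 * (x 0 ^ 2 * x 1) +
      3 * a 3 * (x 0 * x 1 ^ 2) + 4 * a 4 * x 1 ^ 3) (m + 3 • n)
    refine IsWeightedHomogeneous.add (IsWeightedHomogeneous.add (IsWeightedHomogeneous.add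
      ?_ ?_) ?_) ?_
    · exact (ha 1).mul ((hx 0).pow 3)
    · exact (sm_hom two_hom (ha 2)).mul p1
    · exact (sm_hom three_hom (ha 3)).mul p2
    · exact (sm_hom four_hom (ha 4)).mul ((hx 1).pow 3)

/-- The generic form. -/
noncomputable def zp (c : Fin 5 → Fin 5 → K) :
    (Fin 2 × Fin 2) ⊕ (Fin 2 × Fin 2) → MvPolynomial (Fin 2 ⊕ Fin 2) K :=
  ZA (fun i j => C (c i j)) (xv K) (yv K)

theorem zp_hom (c : Fin 5 → Fin 5 → K) (k : (Fin 2 × Fin 2) ⊕ (Fin 2 × Fin 2)) :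
    IsWeightedHomogeneous wt (zp c k) ((8, 8) : ℕ × ℕ) := by
  have hc (i j : Fin 5) : IsWeightedHomogeneous wt
      ((C (c i j) : MvPolynomial (Fin 2 ⊕ Fin 2) K)) (0 : ℕ × ℕ) :=
    isWeightedHomogeneous_C wt _
  rcases k with k | k
  · change IsWeightedHomogeneous wt
      (bd (cx (fun i j => C (c i j)) (yv K)) (xv K) k.1 ^ 2 * xv K k.2 ^ 2) _
    have h1 := bd_hom (cx (fun i j => C (c i j)) (yv K)) (xv K) (0 + 4 • (0, 1)) (1, 0)
      (fun i => bq_hom _ _ _ _ (hc i) yv_hom) xv_hom k.1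
    exact (h1.pow 2).mul ((xv_hom k.2).pow 2)
  · change IsWeightedHomogeneous wt
      (bd (cy (fun i j => C (c i j)) (xv K)) (yv K) k.1 ^ 2 * yv K k.2 ^ 2) _
    have h1 := bd_hom (cy (fun i j => C (c i j)) (xv K)) (yv K) (0 + 4 • (1, 0)) (0, 1)
      (fun j => bq_hom _ _ _ _ (fun i => hc i j) xv_hom) yv_hom k.1
    exact (h1.pow 2).mul ((yv_hom k.2).pow 2)

/-! ### Forms of bidegree `(M, M)` are forms of degree `M` in the products -/

theorem expo (M a a' b b' : ℕ) (h : a + a' = M) (h' : b + b' = M) :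
    ∃ p q r s : ℕ, p + q + r + s = M ∧ p + q = a ∧ r + s = a' ∧ p + r = b ∧ q + s = b' := by
  rcases le_total a b with hab | hab
  · exact ⟨a, 0, b - a, b', by omega, by omega, by omega, by omega, by omega⟩
  · exact ⟨b, a - b, 0, a', by omega, by omega, by omega, by omega, by omega⟩

/-- The exponent with the given values. -/
noncomputable def ex (p q r s : ℕ) : (Fin 2 × Fin 2) →₀ ℕ :=
  Finsupp.single (0, 0) p + Finsupp.single (0, 1) q + Finsupp.single (1, 0) r +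
    Finsupp.single (1, 1) s

theorem ex_deg (p q r s : ℕ) : (ex p q r s).degree = p + q + r + s := by
  simp [ex, Finsupp.degree_single]

theorem ex_prod (p q r s : ℕ) (x y : Fin 2 → K) :
    ((ex p q r s).prod fun i n => (x i.1 * y i.2) ^ n) =
      x 0 ^ (p + q) * x 1 ^ (r + s) * (y 0 ^ (p + r) * y 1 ^ (q + s)) := by
  unfold ex
  rw [Finsupp.prod_add_index' (fun _ => pow_zero _) (fun _ _ _ => pow_add _ _ _),
    Finsupp.prod_add_index' (fun _ => pow_zero _) (fun _ _ _ => pow_add _ _ _),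
    Finsupp.prod_add_index' (fun _ => pow_zero _) (fun _ _ _ => pow_add _ _ _)]
  simp only [Finsupp.prod_single_index, pow_zero]
  ring

theorem wt_weight (d : Fin 2 ⊕ Fin 2 →₀ ℕ) :
    Finsupp.weight wt d =
      (d (Sum.inl 0) + d (Sum.inl 1), d (Sum.inr 0) + d (Sum.inr 1)) := by
  rw [Finsupp.weight_apply, Finsupp.sum_fintype _ _ (fun i => zero_smul ℕ (wt i)),
    Fintype.sum_sum_type]
  simp [wt, Fin.sum_univ_two]

theorem conv (M : ℕ) (B : MvPolynomial (Fin 2 ⊕ Fin 2) K)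
    (hB : IsWeightedHomogeneous wt B ((M, M) : ℕ × ℕ)) :
    ∃ Q : MvPolynomial (Fin 2 × Fin 2) K, Q.IsHomogeneous M ∧ ∀ x y : Fin 2 → K,
      eval (fun p => x p.1 * y p.2) Q = eval (Sum.elim x y) B := by
  have key (d : Fin 2 ⊕ Fin 2 →₀ ℕ) (hd : coeff d B ≠ 0) : ∃ e : (Fin 2 × Fin 2) →₀ ℕ,
      e.degree = M ∧ ∀ x y : Fin 2 → K, (e.prod fun i n => (x i.1 * y i.2) ^ n) =
        d.prod fun i n => (Sum.elim x y i) ^ n := by
    have h := hB hd
    rw [wt_weight, Prod.mk.injEq] at h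
    obtain ⟨p, q, r, s, h0, h1, h2, h3, h4⟩ := expo M _ _ _ _ h.1 h.2
    refine ⟨ex p q r s, by rw [ex_deg, h0], fun x y => ?_⟩
    rw [ex_prod, h1, h2, h3, h4, Finsupp.prod_fintype _ _ (fun _ => pow_zero _),
      Fintype.prod_sum_type]
    simp [Fin.prod_univ_two]
  choose! e he1 he2 using key
  refine ⟨∑ d ∈ B.support, monomial (e d) (coeff d B), ?_, fun x y => ?_⟩
  · refine IsHomogeneous.sum _ _ _ fun d hd => ?_
    exact isHomogeneous_monomial _ (he1 d (mem_support_iff.1 hd))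
  · rw [map_sum]
    conv_rhs => rw [B.as_sum, map_sum]
    refine Finset.sum_congr rfl fun d hd => ?_
    rw [eval_monomial, eval_monomial, he2 d (mem_support_iff.1 hd)]

/-! ### The Nullstellensatz -/

/-- The ideal. -/
noncomputable def idl (c : Fin 5 → Fin 5 → K) : Ideal (MvPolynomial (Fin 2 ⊕ Fin 2) K) :=
  Ideal.span (Set.range (zp c))

theorem rad (c : Fin 5 → Fin 5 → K) (hc : Smooth c) (i j : Fin 2) :
    xv K i * yv K j ∈ (idl c).radical := by
  rw [← vanishingIdeal_zeroLocus_eq_radical (K := AlgebraicClosure K), mem_vanishingIdeal_iff]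
  intro z hz
  rw [idl, zeroLocus_span] at hz
  by_contra hne
  have e1 : aeval z (xv K i * yv K j) = z (Sum.inl i) * z (Sum.inr j) := by
    simp [xv, yv]
  rw [e1] at hne
  have hx : z (Sum.inl i) ≠ 0 := left_ne_zero_of_mul hne
  have hy : z (Sum.inr j) ≠ 0 := right_ne_zero_of_mul hne
  have hk (k : (Fin 2 × Fin 2) ⊕ (Fin 2 × Fin 2)) :
      ZA (fun i j => algebraMap K (AlgebraicClosure K) (c i j)) (fun i => z (Sum.inl i))
        (fun i => z (Sum.inr i)) k = 0 := by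
    have h1 := hz (zp c k) ⟨k, rfl⟩
    have h2 := ZA_map (aeval z : MvPolynomial (Fin 2 ⊕ Fin 2) K →ₐ[K] AlgebraicClosure K).toRingHom
      (fun i j => C (c i j)) (xv K) (yv K) k
    have h3 : (aeval z : MvPolynomial (Fin 2 ⊕ Fin 2) K →ₐ[K] AlgebraicClosure K).toRingHom
        (ZA (fun i j => C (c i j)) (xv K) (yv K) k) = 0 := h1
    rw [h3] at h2
    simpa [xv, yv] using h2.symm
  refine hc (fun i => z (Sum.inl i)) (fun i => z (Sum.inr i)) (fun h => hx (congrFun h i))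
    (fun h => hy (congrFun h j)) (fun k => ?_) fun k => ?_
  · have h := hk (Sum.inl (k, i))
    simp only [ZA, Sum.elim_inl] at h
    have h' := (mul_eq_zero.1 h).resolve_right (pow_ne_zero 2 hx)
    exact pow_eq_zero_iff two_ne_zero |>.1 h'
  · have h := hk (Sum.inr (k, j))
    simp only [ZA, Sum.elim_inr] at h
    have h' := (mul_eq_zero.1 h).resolve_right (pow_ne_zero 2 hy)
    exact pow_eq_zero_iff two_ne_zero |>.1 h'

theorem pws (c : Fin 5 → Fin 5 → K) (hc : Smooth c) :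
    ∃ M : ℕ, ∀ i j : Fin 2, (xv K i * yv K j) ^ (M + 8) ∈ idl c := by
  have h (p : Fin 2 × Fin 2) : ∃ n : ℕ, (xv K p.1 * yv K p.2) ^ n ∈ idl c :=
    rad c hc p.1 p.2
  choose n hn using h
  refine ⟨∑ p, n p, fun i j => ?_⟩
  have hle : n (i, j) ≤ (∑ p, n p) + 8 :=
    (Finset.single_le_sum (f := n) (fun _ _ => Nat.zero_le _) (Finset.mem_univ (i, j))).trans
      (Nat.le_add_right _ _)
  obtain ⟨m, hm⟩ := Nat.exists_eq_add_of_le hle
  rw [hm, pow_add]
  exact Ideal.mul_mem_right _ _ (hn (i, j))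

theorem cof (c : Fin 5 → Fin 5 → K) (hc : Smooth c) :
    ∃ (M : ℕ) (Q : (Fin 2 × Fin 2) × ((Fin 2 × Fin 2) ⊕ (Fin 2 × Fin 2)) →
      MvPolynomial (Fin 2 × Fin 2) K), (∀ a, (Q a).IsHomogeneous M) ∧
      ∀ (x y : Fin 2 → K) (p : Fin 2 × Fin 2),
        ∑ k, eval (fun p => x p.1 * y p.2) (Q (p, k)) * ZA c x y k =
          (x p.1 * y p.2) ^ (M + 8) := by
  classical
  obtain ⟨M, hM⟩ := pws c hc
  let _ : GradedAlgebra (weightedHomogeneousSubmodule K wt) := weightedGradedAlgebra K wt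
  have key (p : Fin 2 × Fin 2) : ∃ B : (Fin 2 × Fin 2) ⊕ (Fin 2 × Fin 2) →
      MvPolynomial (Fin 2 ⊕ Fin 2) K, (∀ k, IsWeightedHomogeneous wt (B k) ((M, M) : ℕ × ℕ)) ∧
        ∑ k, zp c k * B k = (xv K p.1 * yv K p.2) ^ (M + 8) := by
    obtain ⟨A, hA⟩ := Ideal.mem_span_range_iff_exists_fun.1 (hM p.1 p.2)
    refine ⟨fun k => (DirectSum.decompose (weightedHomogeneousSubmodule K wt) (A k)
      ((M, M) : ℕ × ℕ) : MvPolynomial (Fin 2 ⊕ Fin 2) K), fun k => ?_, ?_⟩
    · exact (DirectSum.decompose (weightedHomogeneousSubmodule K wt) (A k)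
        ((M, M) : ℕ × ℕ)).2
    · have h1 (k : (Fin 2 × Fin 2) ⊕ (Fin 2 × Fin 2)) :
          zp c k * (DirectSum.decompose (weightedHomogeneousSubmodule K wt) (A k)
            ((M, M) : ℕ × ℕ) : MvPolynomial (Fin 2 ⊕ Fin 2) K) =
          (DirectSum.decompose (weightedHomogeneousSubmodule K wt) (zp c k * A k)
            (((8, 8) : ℕ × ℕ) + (M, M)) : MvPolynomial (Fin 2 ⊕ Fin 2) K) :=
        (DirectSum.coe_decompose_mul_add_of_left_mem (weightedHomogeneousSubmodule K wt)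
          (zp_hom c k)).symm
      rw [Finset.sum_congr rfl fun k _ => h1 k]
      have h2 : (xv K p.1 * yv K p.2) ^ (M + 8) ∈
          weightedHomogeneousSubmodule K wt (((8, 8) : ℕ × ℕ) + (M, M)) := by
        have := ((xv_hom (K := K) p.1).mul (yv_hom p.2)).pow (M + 8)
        have e : (M + 8) • (((1, 0) : ℕ × ℕ) + (0, 1)) = ((8, 8) : ℕ × ℕ) + (M, M) := by
          ext <;> simp <;> ring
        rw [e] at this
        exact this
      rw [← DirectSum.decompose_of_mem_same _ h2, ← hA, DirectSum.decompose_sum]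
      rw [DirectSum.sum_apply, AddSubmonoidClass.coe_finsetSum]
      refine Finset.sum_congr rfl fun k _ => ?_
      rw [mul_comm (A k)]
  choose B hB1 hB2 using key
  have key2 (a : (Fin 2 × Fin 2) × ((Fin 2 × Fin 2) ⊕ (Fin 2 × Fin 2))) :=
    conv M (B a.1 a.2) (hB1 a.1 a.2)
  choose Q hQ1 hQ2 using key2
  refine ⟨M, Q, hQ1, fun x y p => ?_⟩
  have h := congrArg (eval (Sum.elim x y)) (hB2 p)
  rw [map_sum] at h
  have e1 : eval (Sum.elim x y) ((xv K p.1 * yv K p.2) ^ (M + 8)) =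
      (x p.1 * y p.2) ^ (M + 8) := by
    simp [xv, yv]
  rw [e1] at h
  rw [← h]
  refine Finset.sum_congr rfl fun k _ => ?_
  rw [hQ2, map_mul, mul_comm]
  have h2 := ZA_map (eval (Sum.elim x y)) (fun i j => C (c i j)) (xv K) (yv K) k
  have e2 : eval (Sum.elim x y) (zp c k) = ZA c x y k := by
    unfold zp
    rw [h2]
    simp [xv, yv]
  rw [e2]

/-! ### Heights -/

/-- NSH: a lower bound for the height of the partial derivatives, on all of `ℙ¹ × ℙ¹`. -/
theorem nsh : S_NSH := by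
  intro K _ _ c hc
  obtain ⟨M, Q, hQ1, hQ2⟩ := cof c hc
  obtain ⟨D, hD, hD2⟩ := mulHeight_eval_ge' (K := K) (N := 8) hQ1
  refine ⟨D, hD, fun s t => ⟨fun h0 => ?_, ?_⟩⟩
  · have h := hQ2 ![1, s] ![1, t] (0, 0)
    rw [h0] at h
    simp at h
  · have h := hD2 (fun k => C (ZA c ![1, s] ![1, t] k))
      (x := fun p => ![(1 : K), s] p.1 * ![(1 : K), t] p.2) (fun p => by
        simp only [eval_C]
        exact hQ2 _ _ p)
    have hs : ![(1 : K), s] ≠ 0 := fun h => one_ne_zero (congrFun h 0)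
    have ht : ![(1 : K), t] ≠ 0 := fun h => one_ne_zero (congrFun h 0)
    rw [mulHeight_fun_mul_eq hs ht, mulHeight_swap 1 s, mulHeight_swap 1 t,
      ← mulHeight₁_eq_mulHeight, ← mulHeight₁_eq_mulHeight] at h
    simpa only [eval_C] using h

end Pool.Agent.Q275.TT
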